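import Pool.Agent.Lib.MP_478c11_gt.M.RIM

set_option autoImplicit false

/-!
MP_478c11_gt: real-analytic surfaces (of any genus, any curvature) with one nondegenerate convex rim do not bend through
real-analytic surfaces.  The bendings are only assumed to be smooth in the parameter `α`.

A rim is a closed curve on the surface along which the tangent plane is constant, such as the top circle of a torus of
revolution, or of any surface which touches the boundary of its convex hull along a flat convex curve.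

Idea of the proof.
(1) Along the rim write the second surface in the moving frame of the rim.  Gauss' equation at the rim (where `K = 0`,
and `K` changes sign) and the Codazzi equations give a first order equation for the torsion-like function `τ` of the rim
in the second surface; its period conditions (the rim closes up) and a winding number argument give `τ = 0` once the
second surface is close to the first along the rim.
(2) The equations for the higher `t`-derivatives of the second fundamental form along the rim are solved recursively: the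
two surfaces agree to infinite order along the rim, up to a motion.
(3) Analytic continuation.  A limit argument gives the statement on bendings.
-/

open Real Set
open scoped ContDiff Manifold InnerProductSpace

namespace Pool.Agent.Results.MP_478c11_gt.AnalyticRimRigidity

/-- the model space of surfaces -/
abbrev E2 : Type := EuclideanSpace ℝ (Fin 2)

/-- Euclidean 3-space -/
abbrev E3 : Type := EuclideanSpace ℝ (Fin 3)

/-- the vector product -/
noncomputable def cross (a b : E3) : E3 :=
  !₂[a 1 * b 2 - a 2 * b 1, a 2 * b 0 - a 0 * b 2, a 0 * b 1 - a 1 * b 0]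

/-- partial derivative in the first variable `t` -/
noncomputable def dt (Y : ℝ → ℝ → E3) : ℝ → ℝ → E3 := fun t θ => deriv (fun s => Y s θ) t

/-- partial derivative in the second variable `θ` -/
noncomputable def dh (Y : ℝ → ℝ → E3) : ℝ → ℝ → E3 := fun t θ => deriv (fun s => Y t s) θ

/-- The level `t = t₀` of the strip `X` is a nondegenerate convex rim: a convex curve in the plane of the orthonormal
vectors `u₁, u₂`, with `X_θ = R(θ) (cos θ u₁ + sin θ u₂)`, `R > 0`, along which the tangent plane of the surface is the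
plane of the curve and `X_t` is the unit conormal, and the surface is curved in the direction of `X_t`. -/
def ConvexRim (X : ℝ → ℝ → E3) (t₀ : ℝ) : Prop := ∃ (R : ℝ → ℝ) (u₁ u₂ : E3) (s : ℝ),
  ‖u₁‖ = 1 ∧ ‖u₂‖ = 1 ∧ ⟪u₁, u₂⟫_ℝ = 0 ∧ (s = 1 ∨ s = -1) ∧ (∀ θ, 0 < R θ) ∧
  (∀ θ, dh X t₀ θ = R θ • (cos θ • u₁ + sin θ • u₂)) ∧
  (∀ θ, dt X t₀ θ = s • (-sin θ • u₁ + cos θ • u₂)) ∧ ∀ θ, ⟪dt (dt X) t₀ θ, cross u₁ u₂⟫_ℝ ≠ 0

/-- `X` and `Y` are `ε`-close along the curve `t = t₀`: six partial derivatives of order at most four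
(`Y_θ`, `Y_θθ`, `Y_t`, `Y_tθθ`, `Y_tθθθ`, `Y_tt`) differ by at most `ε`. -/
def CloseAlong (ε t₀ : ℝ) (X Y : ℝ → ℝ → E3) : Prop := ∀ θ,
  ‖dh Y t₀ θ - dh X t₀ θ‖ ≤ ε ∧ ‖dh (dh Y) t₀ θ - dh (dh X) t₀ θ‖ ≤ ε ∧ ‖dt Y t₀ θ - dt X t₀ θ‖ ≤ ε ∧
  ‖dh (dh (dt Y)) t₀ θ - dh (dh (dt X)) t₀ θ‖ ≤ ε ∧ ‖dh (dh (dh (dt Y))) t₀ θ - dh (dh (dh (dt X))) t₀ θ‖ ≤ ε ∧
  ‖dt (dt Y) t₀ θ - dt (dt X) t₀ θ‖ ≤ ε

section
variable (E : Type) {F M : Type} [NormedAddCommGroup E] [NormedSpace ℝ E] [NormedAddCommGroup F]
  [NormedSpace ℝ F] [TopologicalSpace M] [ChartedSpace E M]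

/-- a real-analytic map of the manifold `M` (modelled on `E`) into the space `F` -/
def Analytic (f : M → F) : Prop := ContMDiff 𝓘(ℝ, E) 𝓘(ℝ, F) ω f

/-- a map of two variables into the manifold `M` (modelled on `E`), which is real-analytic on the strip `J × ℝ` -/
def AnalyticStrip (J : Set ℝ) (ψ : ℝ × ℝ → M) : Prop := ContMDiffOn 𝓘(ℝ, ℝ × ℝ) 𝓘(ℝ, E) ω ψ (J ×ˢ univ)

/-- the differential of a map `f` of the manifold `M` (modelled on `E`) into the space `F`: a vector of `F` for each
tangent vector of `M` -/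
noncomputable def dF (f : M → F) (x : M) (v : TangentSpace 𝓘(ℝ, E) x) : F := mfderiv 𝓘(ℝ, E) 𝓘(ℝ, F) f x v

/-- The maps `f`, `g` of `M` into space induce the same Riemannian metric on `M`. -/
def SameMetric (f g : M → F) : Prop := ∀ (x : M) (v : TangentSpace 𝓘(ℝ, E) x), ‖dF E f x v‖ = ‖dF E g x v‖

/-- A bending through analytic surfaces: `(α, x) ↦ f α x` is `C^∞` on `[0, 1] × M`, each `f α` is real-analytic, and the
metric induced by `f α` does not depend on `α`. -/
structure IsAnalyticBending (f : ℝ → M → F) : Prop where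
  smooth : ContMDiffOn (𝓘(ℝ, ℝ).prod 𝓘(ℝ, E)) 𝓘(ℝ, F) ∞ (fun p : ℝ × M => f p.1 p.2) (Icc 0 1 ×ˢ univ)
  analytic : ∀ α ∈ Icc (0 : ℝ) 1, Analytic E (f α)
  metric : ∀ α ∈ Icc (0 : ℝ) 1, SameMetric E (f α) (f 0)

end

/-- `g` is `f` followed by an isometry of space -/
def Congruent {M F : Type} [NormedAddCommGroup F] [NormedSpace ℝ F] (f g : M → F) : Prop :=
  ∃ (A : F ≃ₗᵢ[ℝ] F) (b : F), ∀ x, A (g x) + b = f x

/-- **Rigidity of real-analytic surfaces with a rim.**  Let `M` be a connected real-analytic surface, `f₀ : M → ℝ³`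
real-analytic, and let `ψ : J × ℝ → M` be a real-analytic annular strip whose level `t = t₀` is a nondegenerate convex rim
of `f₀`.  Then there is `ε > 0` such that every bending `(f α)` through real-analytic surfaces, whose metric is the one of
`f₀` and whose first map `f 0` is `ε`-close to `f₀` along the rim, consists of maps congruent to `f₀`.

For `f 0 = f₀` this says that every bending of `f₀` through real-analytic surfaces is trivial.  For `f` not depending on
`α` it says that every real-analytic isometric map which is `ε`-close to `f₀` along the rim is congruent to `f₀`. -/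
theorem result {M : Type} [TopologicalSpace M] [ChartedSpace E2 M] [IsManifold 𝓘(ℝ, E2) ω M] [ConnectedSpace M]
    (f₀ : M → E3) (J : Set ℝ) (ψ : ℝ × ℝ → M) (t₀ : ℝ) (hf₀ : Analytic E2 f₀) (hJ : IsOpen J) (ht₀ : t₀ ∈ J)
    (hψ : AnalyticStrip E2 J ψ) (hper : ∀ t ∈ J, ∀ θ, ψ (t, θ + 2 * π) = ψ (t, θ))
    (hrim : ConvexRim (fun t θ => f₀ (ψ (t, θ))) t₀) :
    ∃ ε : ℝ, 0 < ε ∧ ∀ f : ℝ → M → E3, IsAnalyticBending E2 f → SameMetric E2 (f 0) f₀ →
      CloseAlong ε t₀ (fun t θ => f₀ (ψ (t, θ))) (fun t θ => f 0 (ψ (t, θ))) →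
      ∀ α ∈ Icc (0 : ℝ) 1, Congruent f₀ (f α) := by
  obtain ⟨ε, hε, H⟩ := Rim478.rimMB hJ ht₀ hψ hper hf₀ hrim
  exact ⟨ε, hε, fun f hf h0 hc => H f hf.smooth hf.analytic hf.metric h0 hc⟩

end Pool.Agent.Results.MP_478c11_gt.AnalyticRimRigidity
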