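import Pool.Agent.Lib.MP_478c11_gt.G.AllG

set_option autoImplicit false

/-!
MP_478c11_gt: nonconvex `C^∞` surfaces of any genus which are isolated among isometric surfaces, and do not bend.

The surfaces: the part `K > 0` is arbitrary, the rest is covered by annular strips `ψ : J × ℝ → M` (`2π`-periodic in
`θ`), all of whose levels `t = t₁` are admissible; one of the levels is a nondegenerate convex rim, a curve along which
the tangent plane is constant, such as the top circle of a torus of revolution.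

Admissible levels are for example: closed curves in `K < 0` which are nowhere tangent to an asymptotic direction; closed
curves of `K = 0`, on which `K` vanishes to finite constant order, nowhere tangent to the asymptotic direction; the
nondegenerate rims; all parallels of a surface of revolution at which `K` does not vanish to infinite order.

Example, any genus `≥ 1`: two nested convex surfaces, joined by any number of necks of revolution.  Each neck starts at a
rim of the outer surface, and ends at an inflection of its profile at the inner surface.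

Idea of the proof.
(1) Along the rim write the second surface in the moving frame of the rim.  Gauss' equation at the rim (where `K = 0`,
and `K` changes sign) and the Codazzi equations give a first order equation for the torsion-like function `τ` of the rim
in the second surface; its period conditions (the rim closes up) and a winding number argument give `τ = 0` once the
second surface is close to the first along the rim.
(2) The equations for the higher `t`-derivatives of the second fundamental form along the rim are solved recursively: the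
two surfaces agree to infinite order along the rim, up to a motion.
(3) Unique continuation across admissible levels for the difference of the second fundamental forms, in arbitrary
coordinates: energy estimates where `K < 0`, an (Almgren) frequency function where `K > 0`, singular weights at the
levels with `K = 0`.  In `K > 0` polar coordinate strips are used.  So the set where the surfaces agree is everything.
-/

open Real Set
open scoped ContDiff Manifold InnerProductSpace

namespace Pool.Agent.Results.MP_478c11_gt.AnyGenusRigidity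

/-- the model space of surfaces -/
abbrev E2 : Type := EuclideanSpace ℝ (Fin 2)

/-- Euclidean 3-space -/
abbrev E3 : Type := EuclideanSpace ℝ (Fin 3)

/-- the vector product -/
noncomputable def cross (a b : E3) : E3 :=
  !₂[a 1 * b 2 - a 2 * b 1, a 2 * b 0 - a 0 * b 2, a 0 * b 1 - a 1 * b 0]

/-! ### Strips: maps of `(t, θ)` -/

/-- partial derivative in the first variable `t` -/
noncomputable def dt {V : Type} [NormedAddCommGroup V] [NormedSpace ℝ V] (Y : ℝ → ℝ → V) : ℝ → ℝ → V :=
  fun t θ => deriv (fun s => Y s θ) t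

/-- partial derivative in the second variable `θ` -/
noncomputable def dh {V : Type} [NormedAddCommGroup V] [NormedSpace ℝ V] (Y : ℝ → ℝ → V) : ℝ → ℝ → V :=
  fun t θ => deriv (fun s => Y t s) θ

/-- the normal `X_t × X_θ`, not normalized -/
noncomputable def nrm (X : ℝ → ℝ → E3) (t θ : ℝ) : E3 := cross (dt X t θ) (dh X t θ)

/-- the coefficients of the second fundamental form, times the area density `|X_t × X_θ|` -/
noncomputable def L11 (X : ℝ → ℝ → E3) (t θ : ℝ) : ℝ := ⟪dt (dt X) t θ, nrm X t θ⟫_ℝ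
noncomputable def L12 (X : ℝ → ℝ → E3) (t θ : ℝ) : ℝ := ⟪dh (dt X) t θ, nrm X t θ⟫_ℝ
noncomputable def L22 (X : ℝ → ℝ → E3) (t θ : ℝ) : ℝ := ⟪dh (dh X) t θ, nrm X t θ⟫_ℝ

/-- `L₁₁ L₂₂ - L₁₂²`, that is the Gauss curvature times a positive function -/
noncomputable def Kdet (X : ℝ → ℝ → E3) (t θ : ℝ) : ℝ := L11 X t θ * L22 X t θ - L12 X t θ ^ 2

/-- `u` vanishes at least to order `k` on the level `t = t₁` -/
def VanishTo (t₁ : ℝ) (k : ℕ) (u : ℝ → ℝ → ℝ) : Prop := ∀ i < k, ∀ θ, (dt^[i] u) t₁ θ = 0

/-- `u` vanishes exactly to order `k` at every point of the level `t = t₁` -/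
def ExactOrder (t₁ : ℝ) (k : ℕ) (u : ℝ → ℝ → ℝ) : Prop := VanishTo t₁ k u ∧ ∀ θ, (dt^[k] u) t₁ θ ≠ 0

/-- The level `t = t₁` of the strip `X` is admissible: on it `L₂₂` (the normal curvature in the direction of the level)
vanishes exactly to some order `j`, `L₁₂` at least to order `j`, and `K` exactly to some order `k`, with `2j ≤ k + 1`.
(`j = 0`: the level is nowhere tangent to an asymptotic direction.  `j = k = 1`: the nondegenerate rims.) -/
def AdmissibleLevel (X : ℝ → ℝ → E3) (t₁ : ℝ) : Prop := ∃ j k : ℕ,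
  ExactOrder t₁ j (L22 X) ∧ VanishTo t₁ j (L12 X) ∧ ExactOrder t₁ k (Kdet X) ∧ 2 * j ≤ k + 1

/-- The level `t = t₀` of the strip `X` is a nondegenerate convex rim: a convex curve in the plane of the orthonormal
vectors `u₁, u₂`, with `X_θ = R(θ) (cos θ u₁ + sin θ u₂)`, `R > 0`, along which the tangent plane of the surface is the
plane of the curve and `X_t` is the unit conormal, and the surface is curved in the direction of `X_t`. -/
def ConvexRim (X : ℝ → ℝ → E3) (t₀ : ℝ) : Prop := ∃ (R : ℝ → ℝ) (u₁ u₂ : E3) (s : ℝ),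
  ‖u₁‖ = 1 ∧ ‖u₂‖ = 1 ∧ ⟪u₁, u₂⟫_ℝ = 0 ∧ (s = 1 ∨ s = -1) ∧ (∀ θ, 0 < R θ) ∧
  (∀ θ, dh X t₀ θ = R θ • (cos θ • u₁ + sin θ • u₂)) ∧
  (∀ θ, dt X t₀ θ = s • (-sin θ • u₁ + cos θ • u₂)) ∧ ∀ θ, ⟪dt (dt X) t₀ θ, cross u₁ u₂⟫_ℝ ≠ 0

/-- `X` and `Y` are `ε`-close along the curve `t = t₀`: six partial derivatives of order at most four
(`Y_θ`, `Y_θθ`, `Y_t`, `Y_tθθ`, `Y_tθθθ`, `Y_tt`) differ by at most `ε`. -/
def CloseAlong {V : Type} [NormedAddCommGroup V] [NormedSpace ℝ V] (ε t₀ : ℝ) (X Y : ℝ → ℝ → V) : Prop := ∀ θ,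
  ‖dh Y t₀ θ - dh X t₀ θ‖ ≤ ε ∧ ‖dh (dh Y) t₀ θ - dh (dh X) t₀ θ‖ ≤ ε ∧ ‖dt Y t₀ θ - dt X t₀ θ‖ ≤ ε ∧
  ‖dh (dh (dt Y)) t₀ θ - dh (dh (dt X)) t₀ θ‖ ≤ ε ∧ ‖dh (dh (dh (dt Y))) t₀ θ - dh (dh (dh (dt X))) t₀ θ‖ ≤ ε ∧
  ‖dt (dt Y) t₀ θ - dt (dt X) t₀ θ‖ ≤ ε

/-! ### Surfaces -/

section
variable (E : Type) {F M : Type} [NormedAddCommGroup E] [NormedSpace ℝ E] [NormedAddCommGroup F]
  [NormedSpace ℝ F] [TopologicalSpace M] [ChartedSpace E M]

/-- a `C^∞` map of the manifold `M` (modelled on `E`) into the space `F` -/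
def Smooth (f : M → F) : Prop := ContMDiff 𝓘(ℝ, E) 𝓘(ℝ, F) ∞ f

/-- a map of two variables into the manifold `M` (modelled on `E`), which is `C^∞` on the strip `J × ℝ` -/
def SmoothStrip (J : Set ℝ) (ψ : ℝ × ℝ → M) : Prop := ContMDiffOn 𝓘(ℝ, ℝ × ℝ) 𝓘(ℝ, E) ∞ ψ (J ×ˢ univ)

/-- a map of two variables into the manifold `M` (modelled on `E`), which is `C^∞` at the origin -/
def SmoothAtZero (ψ : ℝ × ℝ → M) : Prop := ContMDiffAt 𝓘(ℝ, ℝ × ℝ) 𝓘(ℝ, E) ∞ ψ 0

/-- the differential of a map `f` of the manifold `M` (modelled on `E`) into the space `F`: a vector of `F` for each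
tangent vector of `M` -/
noncomputable def dF (f : M → F) (x : M) (v : TangentSpace 𝓘(ℝ, E) x) : F := mfderiv 𝓘(ℝ, E) 𝓘(ℝ, F) f x v

/-- The maps `f`, `g` of `M` into space induce the same Riemannian metric on `M`. -/
def SameMetric (f g : M → F) : Prop := ∀ (x : M) (v : TangentSpace 𝓘(ℝ, E) x), ‖dF E f x v‖ = ‖dF E g x v‖

/-- A bending: `(α, x) ↦ f α x` is `C^∞` on `[0, 1] × M`, and the metric induced by `f α` does not depend on `α`. -/
structure IsBending (f : ℝ → M → F) : Prop where
  smooth : ContMDiffOn (𝓘(ℝ, ℝ).prod 𝓘(ℝ, E)) 𝓘(ℝ, F) ∞ (fun p : ℝ × M => f p.1 p.2) (Icc 0 1 ×ˢ univ)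
  metric : ∀ α ∈ Icc (0 : ℝ) 1, SameMetric E (f α) (f 0)

end

/-- `g` is `f` followed by an isometry of space -/
def Congruent {M F : Type} [NormedAddCommGroup F] [NormedSpace ℝ F] (f g : M → F) : Prop :=
  ∃ (A : F ≃ₗᵢ[ℝ] F) (b : F), ∀ x, A (g x) + b = f x

section
variable {M : Type} [TopologicalSpace M] [ChartedSpace E2 M]

/-- `f` is an immersion with positive Gauss curvature at `x`: `L₁₁ L₂₂ - L₁₂² > 0` in some local coordinates `ψ` -/
def PosCurvature (f : M → E3) (x : M) : Prop := ∃ ψ : ℝ × ℝ → M, SmoothAtZero E2 ψ ∧ ψ 0 = x ∧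
  0 < Kdet (fun t θ => f (ψ (t, θ))) 0 0

/-- `ψ : J × ℝ → M` is an annular strip on `M`, immersed into space by `f`, all of whose levels are admissible -/
structure IsStrip (f : M → E3) (J : Set ℝ) (ψ : ℝ × ℝ → M) : Prop where
  isOpen : IsOpen J
  ordConnected : J.OrdConnected
  smooth : SmoothStrip E2 J ψ
  periodic : ∀ t ∈ J, ∀ θ, ψ (t, θ + 2 * π) = ψ (t, θ)
  immersed : ∀ t ∈ J, ∀ θ, nrm (fun t θ => f (ψ (t, θ))) t θ ≠ 0
  admissible : ∀ t ∈ J, AdmissibleLevel (fun t θ => f (ψ (t, θ))) t

/-- the points of `M` of positive curvature, or in one of the strips `ψ i : J i × ℝ → M` -/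
def Covered {ι : Type} (f : M → E3) (J : ι → Set ℝ) (ψ : ι → ℝ × ℝ → M) : Set M :=
  {x | PosCurvature f x ∨ ∃ i, x ∈ ψ i '' (J i ×ˢ univ)}

/-- The surface `f : M → ℝ³` is `C^∞`, and is covered, up to a nowhere dense set which does not disconnect, by the points
with `K > 0` and the strips `ψ i : J i × ℝ → M`; different strips meet only in points with `K > 0`. -/
structure IsStripSurface {ι : Type} (f : M → E3) (J : ι → Set ℝ) (ψ : ι → ℝ × ℝ → M) : Prop where
  smooth : Smooth E2 f
  strip : ∀ i, IsStrip f (J i) (ψ i)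
  disjoint : ∀ i j, i ≠ j → ∀ x ∈ ψ i '' (J i ×ˢ univ), x ∈ ψ j '' (J j ×ˢ univ) → PosCurvature f x
  preconnected : IsPreconnected (Covered f J ψ)
  dense : Dense (Covered f J ψ)

end

/-- **Rigidity of `C^∞` surfaces of any genus with a rim.**  Let `f₀ : M → ℝ³` be a `C^∞` surface which is covered as
above by the points with `K > 0` and strips with admissible levels, and let the level `t = t₀` of the strip `i₀` be a
nondegenerate convex rim.  Then there is `ε > 0` such that every bending `(f α)` of `M`, whose metric is the one of `f₀`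
and whose first map `f 0` is `ε`-close to `f₀` along the rim, consists of maps congruent to `f₀`.

For `f 0 = f₀` this says that every bending of `f₀` is trivial.  For `f` not depending on `α` it says that every `C^∞`
isometric map which is `ε`-close to `f₀` along the rim is congruent to `f₀`.  `M` need not be compact: for an
annulus `M` around the rim the theorem is local. -/
theorem result {M : Type} [TopologicalSpace M] [ChartedSpace E2 M] [IsManifold 𝓘(ℝ, E2) ∞ M] {ι : Type}
    (f₀ : M → E3) (J : ι → Set ℝ) (ψ : ι → ℝ × ℝ → M) (hf₀ : IsStripSurface f₀ J ψ)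
    (i₀ : ι) (t₀ : ℝ) (ht₀ : t₀ ∈ J i₀) (hrim : ConvexRim (fun t θ => f₀ (ψ i₀ (t, θ))) t₀) :
    ∃ ε : ℝ, 0 < ε ∧ ∀ f : ℝ → M → E3, IsBending E2 f → SameMetric E2 (f 0) f₀ →
      CloseAlong ε t₀ (fun t θ => f₀ (ψ i₀ (t, θ))) (fun t θ => f 0 (ψ i₀ (t, θ))) →
      ∀ α ∈ Icc (0 : ℝ) 1, Congruent f₀ (f α) := by
  obtain ⟨ε, hε, H⟩ := Rim478.genMB Rim478.hMLV (f₀ := f₀) (J := J) (ψ := ψ) (i₀ := i₀) (t₀ := t₀) hf₀.smooth
    (fun i => ⟨(hf₀.strip i).isOpen, (hf₀.strip i).ordConnected, (hf₀.strip i).smooth, (hf₀.strip i).periodic,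
      (hf₀.strip i).immersed⟩) (fun i t ht => (hf₀.strip i).admissible t ht) hf₀.disjoint hf₀.preconnected hf₀.dense
    ht₀ hrim
  exact ⟨ε, hε, fun f hf h0 hc => H f hf.smooth hf.metric h0 hc⟩

end Pool.Agent.Results.MP_478c11_gt.AnyGenusRigidity
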