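import Pool.Agent.Lib.MP_478c11_gt.DB.AllDense
import Pool.Agent.Lib.MP_478c11_gt.DB.S.AllS

set_option autoImplicit false

/-!
MP_478c11_gt: a dense set of smooth spheres of revolution is locally rigid and unbendable.

The surfaces are the spheres of revolution `x² + y² = h(z)`, `a ≤ z ≤ b`, with any number of zones of positive and of
negative curvature.  No rim is needed (and there is none), no symmetry of the bending is assumed.

Idea of the proof.  `W = h'²/4 - h h''/2` has the sign of the curvature.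
(1) Let `u` be the displacement of an isometric map, normalised at a pole: `L u = -|du|²/2`, `L` the linearised
isometry operator.  The `n`-th Fourier mode in the angle satisfies `h (h y')' = n² W y + F`.
(2) A priori estimate: for suitable `h` the bounded solutions satisfy `|y|, |h y'| ≤ C n^B sup |F|`, for all `n ≥ 2`.
In `W > 0`: maximum principle.  In a neck `W < 0` the equation is oscillatory, with polynomial bounds for the transfer;
so everything depends on lower bounds `c n^(-B)` for certain determinants.  They hold for the perturbations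
`√h + μ κ` of `√h` for almost all small `μ`: the data rotate with speed bounded below when `μ` moves.
(3) Interpolation: `|u| ≤ C (|u|^0.9)² L^B + (high modes)`, so `sup |u| ≤ C (sup |u|)^1.5`, and `u = 0` if `u` is small.
-/

open Set Filter Topology
open scoped ContDiff InnerProductSpace

namespace Pool.Agent.Results.MP_478c11_gt.GenericSphereRigidity

noncomputable section

/-- Euclidean 3-space -/
abbrev E3 : Type := EuclideanSpace ℝ (Fin 3)

/-- `x² + y² = h(z)`, `a ≤ z ≤ b`, is a smooth sphere of revolution -/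
structure IsProfile (h : ℝ → ℝ) (a b : ℝ) : Prop where
  smooth : ContDiff ℝ ∞ h
  lt : a < b
  left : h a = 0
  right : h b = 0
  pos : ∀ z, a < z → z < b → 0 < h z
  deriv_left : 0 < deriv h a
  deriv_right : deriv h b < 0

/-- the surface `x² + y² = h(z)`, `a ≤ z ≤ b` -/
def Surface (h : ℝ → ℝ) (a b : ℝ) : Set E3 := {x | a ≤ x 2 ∧ x 2 ≤ b ∧ x 0 ^ 2 + x 1 ^ 2 = h (x 2)}

/-- `v` is tangent to the surface at its point `x` -/
def IsTangent (h : ℝ → ℝ) (x v : E3) : Prop := 2 * (x 0 * v 0 + x 1 * v 1) = deriv h (x 2) * v 2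

/-- `f` is `C^∞` on a neighbourhood of the surface, and its restriction to the surface is isometric (it preserves the
lengths of the tangent vectors; an isometric immersion) -/
def IsIsometric (h : ℝ → ℝ) (a b : ℝ) (f : E3 → E3) : Prop :=
  (∃ Ω : Set E3, IsOpen Ω ∧ Surface h a b ⊆ Ω ∧ ContDiffOn ℝ ∞ f Ω) ∧
    ∀ x ∈ Surface h a b, ∀ v, IsTangent h x v → ‖fderiv ℝ f x v‖ = ‖v‖

/-- local rigidity: every isometric map which is uniformly close to the inclusion, with bounded derivatives of order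
`≤ k`, is the restriction of a motion -/
def LocallyRigid (h : ℝ → ℝ) (a b : ℝ) : Prop :=
  ∃ k : ℕ, ∀ M : ℝ, ∃ ε : ℝ, 0 < ε ∧ ∀ f : E3 → E3, IsIsometric h a b f →
    (∀ i ≤ k, ∀ x ∈ Surface h a b, ‖iteratedFDeriv ℝ i f x‖ ≤ M) → (∀ x ∈ Surface h a b, ‖f x - x‖ ≤ ε) →
    ∃ g : E3 ≃ᵢ E3, ∀ x ∈ Surface h a b, f x = g x

/-- a `C^∞` bending of the surface: `(α, x) ↦ F α x` is `C^∞` on a neighbourhood of `[0, 1] × S`, all `F α` are
isometric on `S`, `F 0` is the inclusion -/
structure IsBending (h : ℝ → ℝ) (a b : ℝ) (F : ℝ → E3 → E3) : Prop where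
  smooth : ∃ Ω : Set (ℝ × E3), IsOpen Ω ∧ Icc (0 : ℝ) 1 ×ˢ Surface h a b ⊆ Ω ∧
    ContDiffOn ℝ ∞ (fun p : ℝ × E3 => F p.1 p.2) Ω
  isometric : ∀ α ∈ Icc (0 : ℝ) 1, ∀ x ∈ Surface h a b, ∀ v, IsTangent h x v → ‖fderiv ℝ (F α) x v‖ = ‖v‖
  start : ∀ x ∈ Surface h a b, F 0 x = x

/-- a family of isometric maps which is only continuous in `α`, together with all derivatives in `x` -/
structure IsContinuousBending (h : ℝ → ℝ) (a b : ℝ) (F : ℝ → E3 → E3) : Prop where
  continuous : ∃ Ω : Set E3, IsOpen Ω ∧ Surface h a b ⊆ Ω ∧ (∀ α ∈ Icc (0 : ℝ) 1, ContDiffOn ℝ ∞ (F α) Ω) ∧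
    ∀ i : ℕ, ContinuousOn (fun p : ℝ × E3 => iteratedFDeriv ℝ i (F p.1) p.2) (Icc (0 : ℝ) 1 ×ˢ Ω)
  isometric : ∀ α ∈ Icc (0 : ℝ) 1, ∀ x ∈ Surface h a b, ∀ v, IsTangent h x v → ‖fderiv ℝ (F α) x v‖ = ‖v‖
  start : ∀ x ∈ Surface h a b, F 0 x = x

/-- `f` agrees on the surface with a motion (an isometry of `E3`) -/
def Congruent (h : ℝ → ℝ) (a b : ℝ) (f : E3 → E3) : Prop := ∃ g : E3 ≃ᵢ E3, ∀ x ∈ Surface h a b, f x = g x

/-- **Theorem.** Every sphere of revolution `x² + y² = h(z)` can be changed by an arbitrarily `C^N`-small perturbation of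
`h`, supported in a compact subset of `(a, b)`, such that the new surface is locally rigid and all its bendings, also
those which are only continuous in the parameter, are trivial. -/
theorem result (h : ℝ → ℝ) (a b : ℝ) (hh : IsProfile h a b) (N : ℕ) (δ : ℝ) (hδ : 0 < δ) :
    ∃ h₂ : ℝ → ℝ, IsProfile h₂ a b ∧
      (∃ c d : ℝ, a < c ∧ c < d ∧ d < b ∧ ∀ z, z ∉ Icc c d → h₂ z = h z) ∧
      (∀ i ≤ N, ∀ z, |iteratedDeriv i (fun z => h₂ z - h z) z| ≤ δ) ∧
      LocallyRigid h₂ a b ∧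
      (∀ F : ℝ → E3 → E3, IsBending h₂ a b F → ∀ α ∈ Icc (0 : ℝ) 1, Congruent h₂ a b (F α)) ∧
      (∀ F : ℝ → E3 → E3, IsContinuousBending h₂ a b F → ∀ α ∈ Icc (0 : ℝ) 1, Congruent h₂ a b (F α)) := by
  obtain ⟨h₂, ⟨hS, hc, hN⟩, hE⟩ := Pool.Agent.Lib.MP478c11.DB.hFNG h a b
    ⟨hh.smooth, hh.lt, hh.left, hh.right, hh.pos, hh.deriv_left, hh.deriv_right⟩ N δ hδ
  refine ⟨h₂, ⟨hS.smooth, hS.ab, hS.ha, hS.hb, hS.pos, hS.da, hS.db⟩, hc, hN, ?_, ?_, ?_⟩
  · exact Pool.Agent.Lib.MP478c11.DB.S.locRig hS hE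
  · intro F hF
    exact Pool.Agent.Lib.MP478c11.DB.S.unb hS hE F ⟨hF.smooth, hF.isometric, hF.start⟩
  · intro F hF
    exact Pool.Agent.Lib.MP478c11.DB.S.cunb hS hE F ⟨hF.continuous, hF.isometric, hF.start⟩

end

end Pool.Agent.Results.MP_478c11_gt.GenericSphereRigidity
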